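import Pool.Agent.Helper69.ST.Goals

/-!
Packet BL of project ST: the second trial function of a sector and its energy.
-/

open MeasureTheory Set Complex Metric Filter
open scoped ContDiff Topology ENNReal

namespace Pool.Agent.Helper76.ST.BL

open Pool.Agent.Helper45.Stek Pool.Agent.Helper69.ST

/-- Orthogonality of powers on the disk. -/
theorem pow_orth (m n : ℕ) (h : m ≠ n) :
    ∫ z in ball (0 : ℂ) 1, z ^ m * starRingEnd ℂ (z ^ n) = 0 := by
  obtain ⟨w, hw, hne⟩ : ∃ w : ℂ, ‖w‖ = 1 ∧ w ^ m * starRingEnd ℂ (w ^ n) ≠ 1 := by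
    refine ⟨exp ((1 : ℝ) * I), Complex.norm_exp_ofReal_mul_I _, ?_⟩
    rw [map_pow, ← Complex.exp_conj, map_mul, conj_I, conj_ofReal, ← Complex.exp_nat_mul,
      ← Complex.exp_nat_mul, ← Complex.exp_add]
    intro he
    rw [Complex.exp_eq_one_iff] at he
    obtain ⟨k, hk⟩ := he
    have h1 : ((m : ℂ) - n) * I = (k * (2 * Real.pi)) * I := by
      rw [show ((m : ℂ) - n) * I = m * (((1 : ℝ) : ℂ) * I) + n * (((1 : ℝ) : ℂ) * -I) by
        push_cast
        ring, hk]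
      ring
    have h2 : ((m : ℂ) - n) = k * (2 * Real.pi) := mul_right_cancel₀ I_ne_zero h1
    have h3 : ((m : ℤ) - n : ℝ) = k * (2 * Real.pi) := by
      exact_mod_cast h2
    have h4 : k ≠ 0 := by
      intro h0
      rw [h0] at h3
      have : ((m : ℤ) : ℝ) - n = 0 := by
        simpa using h3
      apply h
      have h5 : (m : ℝ) = n := by
        push_cast at this
        linarith
      exact_mod_cast h5
    have h6 : Irrational Real.pi := irrational_pi
    apply h6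
    refine ⟨((m : ℚ) - n) / (k * 2), ?_⟩
    have hk0 : (k : ℝ) ≠ 0 := by
      exact_mod_cast h4
    push_cast at h3 ⊢
    rw [div_eq_iff (by positivity), h3]
    ring
  have hemb : MeasurableEmbedding (fun z : ℂ => w * z) :=
    (rotE w hw).toHomeomorph.measurableEmbedding
  have hmp : MeasurePreserving (fun z : ℂ => w * z) volume volume :=
    (rotE w hw).measurePreserving
  have himg : (fun z : ℂ => w * z) '' ball 0 1 = ball 0 1 := by
    have hw0 : w ≠ 0 := by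
      intro h0
      rw [h0, norm_zero] at hw
      exact zero_ne_one hw
    ext z
    constructor
    · rintro ⟨y, hy, rfl⟩
      rw [mem_ball_zero_iff] at hy ⊢
      rwa [norm_mul, hw, one_mul]
    · intro hz
      refine ⟨w⁻¹ * z, ?_, ?_⟩
      · rw [mem_ball_zero_iff] at hz ⊢
        rwa [norm_mul, norm_inv, hw, inv_one, one_mul]
      · exact mul_inv_cancel_left₀ hw0 z
  apply integral_zero hmp hemb himg hne
  intro z
  simp only [mul_pow, map_mul]
  ring

/-- The integral of the square of the norm of a power series over the disk. -/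
theorem area_series (a : ℕ → ℂ) (e : ℕ → ℕ) (he : Function.Injective e)
    (ha : Summable (fun j => ‖a j‖)) (F : ℂ → ℂ)
    (hF : ∀ z ∈ ball (0 : ℂ) 1, HasSum (fun j => a j * z ^ e j) (F z)) :
    HasSum (fun j => ‖a j‖ ^ 2 * (Real.pi / (e j + 1))) (∫ z in ball (0 : ℂ) 1, ‖F z‖ ^ 2) := by
  have hfin : volume (ball (0 : ℂ) 1) < ⊤ := measure_ball_lt_top
  have hpart : ∀ N : ℕ, ∫ z in ball (0 : ℂ) 1, ‖∑ j ∈ Finset.range N, a j * z ^ e j‖ ^ 2 =
      ∑ j ∈ Finset.range N, ‖a j‖ ^ 2 * (Real.pi / (e j + 1)) := by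
    intro N
    have h1 := ortho_sum (μ := volume) (S := ball (0 : ℂ) 1)
      ((Finset.range N).map ⟨fun j : ℕ => (j : ℤ), Nat.cast_injective⟩)
      (fun n z => a n.toNat * z ^ e n.toNat)
      (fun n _ l _ => integrableOn_cont measurableSet_ball isBounded_ball hfin (by fun_prop))
      (by
        intro n hn l hl hnl
        simp only [Finset.mem_map, Finset.mem_range, Function.Embedding.coeFn_mk] at hn hl
        obtain ⟨i, _, rfl⟩ := hn
        obtain ⟨j, _, rfl⟩ := hl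
        have hij : e i ≠ e j := fun h => hnl (by rw [he h])
        simp only [Int.toNat_natCast, map_mul]
        have h2 : ∀ z : ℂ, a i * z ^ e i * (starRingEnd ℂ (a j) * starRingEnd ℂ (z ^ e j)) =
            (a i * starRingEnd ℂ (a j)) * (z ^ e i * starRingEnd ℂ (z ^ e j)) := fun z => by ring
        simp only [h2]
        rw [integral_const_mul, pow_orth _ _ hij, mul_zero])
    simp only [Finset.sum_map, Function.Embedding.coeFn_mk, Int.toNat_natCast] at h1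
    rw [h1]
    apply Finset.sum_congr rfl
    intro j _
    have h3 : ∀ z : ℂ, ‖a j * z ^ e j‖ ^ 2 = ‖a j‖ ^ 2 * ‖z‖ ^ (2 * e j) := by
      intro z
      rw [norm_mul, norm_pow, mul_pow, ← pow_mul, mul_comm (e j) 2]
    simp only [h3]
    rw [integral_const_mul, radial_int _ 1 zero_le_one]
    congr 1
    push_cast
    rw [one_pow]
    have : (e j : ℝ) + 1 ≠ 0 := by positivity
    have h2 : 2 * (e j : ℝ) + 2 ≠ 0 := by positivity
    field_simp
  have hlim : Tendsto (fun N : ℕ => ∫ z in ball (0 : ℂ) 1,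
      ‖∑ j ∈ Finset.range N, a j * z ^ e j‖ ^ 2) atTop (𝓝 (∫ z in ball (0 : ℂ) 1, ‖F z‖ ^ 2)) := by
    apply tendsto_integral_of_dominated_convergence (fun _ => (∑' j, ‖a j‖) ^ 2)
    · intro N
      exact Continuous.aestronglyMeasurable (by fun_prop)
    · exact integrableOn_cont measurableSet_ball isBounded_ball hfin continuous_const
    · intro N
      rw [ae_restrict_iff' measurableSet_ball]
      refine Eventually.of_forall fun z hz => ?_
      rw [Real.norm_of_nonneg (by positivity)]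
      apply pow_le_pow_left₀ (norm_nonneg _)
      calc ‖∑ j ∈ Finset.range N, a j * z ^ e j‖ ≤ ∑ j ∈ Finset.range N, ‖a j * z ^ e j‖ :=
            norm_sum_le _ _
        _ ≤ ∑ j ∈ Finset.range N, ‖a j‖ := by
            apply Finset.sum_le_sum
            intro j _
            rw [norm_mul, norm_pow]
            have hz1 : ‖z‖ ≤ 1 := (mem_ball_zero_iff.mp hz).le
            exact mul_le_of_le_one_right (norm_nonneg _) (pow_le_one₀ (norm_nonneg _) hz1)
        _ ≤ ∑' j, ‖a j‖ := ha.sum_le_tsum _ (fun _ _ => norm_nonneg _)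
    · rw [ae_restrict_iff' measurableSet_ball]
      refine Eventually.of_forall fun z hz => ?_
      exact (((hF z hz).tendsto_sum_nat).norm).pow 2
  have hsum : Summable (fun j => ‖a j‖ ^ 2 * (Real.pi / (e j + 1))) := by
    have h4 : Summable (fun j => (∑' j, ‖a j‖) * Real.pi * ‖a j‖) := ha.mul_left _
    refine Summable.of_nonneg_of_le (fun j => by positivity) (fun j => ?_) h4
    have h5 : ‖a j‖ ≤ ∑' j, ‖a j‖ := ha.le_tsum j (fun _ _ => norm_nonneg _)
    have h6 : Real.pi / ((e j : ℝ) + 1) ≤ Real.pi := by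
      apply div_le_self Real.pi_pos.le
      have : (0 : ℝ) ≤ e j := Nat.cast_nonneg _
      linarith
    calc ‖a j‖ ^ 2 * (Real.pi / (e j + 1)) = ‖a j‖ * ‖a j‖ * (Real.pi / (e j + 1)) := by ring
      _ ≤ (∑' j, ‖a j‖) * ‖a j‖ * Real.pi := by
          apply mul_le_mul (mul_le_mul_of_nonneg_right h5 (norm_nonneg _)) h6
          · positivity
          · exact mul_nonneg (tsum_nonneg fun _ => norm_nonneg _) (norm_nonneg _)
      _ = _ := by ring
  have h7 := hsum.hasSum.tendsto_sum_nat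
  simp only [hpart] at hlim
  have h8 := tendsto_nhds_unique h7 hlim
  rw [← h8]
  exact hsum.hasSum

/-- The derivative of `z ^ (q + 1) / (1 - c z ^ p)`. -/
noncomputable def dK (c : ℂ) (p q : ℕ) (z : ℂ) : ℂ :=
  z ^ q * ((q + 1) * (1 - c * z ^ p) + p * (c * z ^ p)) / (1 - c * z ^ p) ^ 2

theorem norm_lt {c z : ℂ} {p : ℕ} (hc : ‖c‖ < 1) (hz : ‖z‖ ≤ 1) : ‖c * z ^ p‖ < 1 := by
  rw [norm_mul, norm_pow]
  exact lt_of_le_of_lt (mul_le_of_le_one_right (norm_nonneg _)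
    (pow_le_one₀ (norm_nonneg _) hz)) hc

theorem ne_zero_of_lt {y : ℂ} (hy : ‖y‖ < 1) : 1 - y ≠ 0 := by
  intro h
  have : y = 1 := by linear_combination -h
  rw [this, norm_one] at hy
  exact lt_irrefl _ hy

theorem hasDerivAt_K (c : ℂ) (p q : ℕ) (hp : 1 ≤ p) (z : ℂ) (h : 1 - c * z ^ p ≠ 0) :
    HasDerivAt (fun z => z ^ (q + 1) / (1 - c * z ^ p)) (dK c p q z) z := by
  obtain ⟨p', rfl⟩ : ∃ p', p = p' + 1 := ⟨p - 1, by omega⟩
  have h1 : HasDerivAt (fun z : ℂ => z ^ (q + 1)) (((q + 1 : ℕ) : ℂ) * z ^ (q + 1 - 1)) z :=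
    hasDerivAt_pow _ _
  have h2 : HasDerivAt (fun z : ℂ => 1 - c * z ^ (p' + 1))
      (-(c * (((p' + 1 : ℕ) : ℂ) * z ^ (p' + 1 - 1)))) z :=
    ((hasDerivAt_pow (p' + 1) z).const_mul c).const_sub 1
  have h3 := h1.fun_div h2 h
  have h4 : dK c (p' + 1) q z = (((q + 1 : ℕ) : ℂ) * z ^ (q + 1 - 1) * (1 - c * z ^ (p' + 1)) -
      z ^ (q + 1) * -(c * (((p' + 1 : ℕ) : ℂ) * z ^ (p' + 1 - 1)))) / (1 - c * z ^ (p' + 1)) ^ 2 := by
    unfold dK
    congr 1
    push_cast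
    ring
  rw [h4]
  exact h3

theorem hasSum_dK (c : ℂ) (p q : ℕ) (hc : ‖c‖ < 1) (z : ℂ) (hz : ‖z‖ ≤ 1) :
    HasSum (fun j : ℕ => (c ^ j * (p * j + (q + 1))) * z ^ (p * j + q)) (dK c p q z) := by
  have hy : ‖c * z ^ p‖ < 1 := norm_lt hc hz
  have h0 := ne_zero_of_lt hy
  have h1 := hasSum_coe_mul_geometric_of_norm_lt_one hy
  have h2 := hasSum_geometric_of_norm_lt_one hy
  have h3 := ((h1.mul_left (p : ℂ)).add (h2.mul_left ((q : ℂ) + 1))).mul_left (z ^ q)
  have h4 : (fun j : ℕ => (c ^ j * (p * j + (q + 1))) * z ^ (p * j + q)) = fun i : ℕ =>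
      z ^ q * ((p : ℂ) * (i * (c * z ^ p) ^ i) + ((q : ℂ) + 1) * (c * z ^ p) ^ i) := by
    ext j
    rw [mul_pow, ← pow_mul, pow_add]
    ring
  have h5 : dK c p q z = z ^ q * ((p : ℂ) * (c * z ^ p / (1 - c * z ^ p) ^ 2) +
      ((q : ℂ) + 1) * (1 - c * z ^ p)⁻¹) := by
    unfold dK
    field_simp
    ring
  rw [h4, h5]
  exact h3

theorem aux_norm (p q j : ℕ) : ‖((p : ℂ) * j + (q + 1))‖ = (p : ℝ) * j + (q + 1) := by
  have h4 : ((p : ℂ) * j + (q + 1)) = ((p * j + (q + 1) : ℕ) : ℂ) := by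
    push_cast
    ring
  rw [h4, Complex.norm_natCast]
  push_cast
  ring

theorem aux_term (c : ℂ) (p q j : ℕ) : ‖c ^ j * ((p : ℂ) * j + (q + 1))‖ ^ 2 *
    (Real.pi / (((p * j + q : ℕ) : ℝ) + 1)) =
    Real.pi * ((p : ℝ) * (j * (‖c‖ ^ 2) ^ j) + ((q : ℝ) + 1) * (‖c‖ ^ 2) ^ j) := by
  have h5 : (p : ℝ) * j + (q + 1) ≠ 0 := by positivity
  have h6 : (((p * j + q : ℕ) : ℝ) + 1) = (p : ℝ) * j + (q + 1) := by
    push_cast
    ring
  rw [norm_mul, norm_pow, aux_norm, h6]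
  field_simp
  rw [← pow_mul, ← pow_mul, mul_comm]

theorem int_dK (c : ℂ) (p q : ℕ) (hp : 1 ≤ p) (hc : ‖c‖ < 1) :
    ∫ z in ball (0 : ℂ) 1, ‖dK c p q z‖ ^ 2 =
      Real.pi * (p * (‖c‖ ^ 2 / (1 - ‖c‖ ^ 2) ^ 2) + (q + 1) * (1 - ‖c‖ ^ 2)⁻¹) := by
  have hx0 : 0 ≤ ‖c‖ ^ 2 := by positivity
  have hx1 : ‖c‖ ^ 2 < 1 := by
    rw [sq_lt_one_iff₀ (norm_nonneg _)]
    exact hc
  have hinj : Function.Injective (fun j : ℕ => p * j + q) := by
    intro i j hij
    have hij' : p * i + q = p * j + q := hij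
    exact Nat.eq_of_mul_eq_mul_left (by omega) (Nat.add_right_cancel hij')
  have hsum : Summable (fun j : ℕ => ‖c ^ j * ((p : ℂ) * j + (q + 1))‖) := by
    have hc' : ‖(‖c‖ : ℝ)‖ < 1 := by rwa [norm_norm]
    have h1 := (hasSum_coe_mul_geometric_of_norm_lt_one hc').summable
    have h2 := (hasSum_geometric_of_norm_lt_one hc').summable
    refine ((h1.mul_left (p : ℝ)).add (h2.mul_left ((q : ℝ) + 1))).congr fun j => ?_
    rw [norm_mul, norm_pow, aux_norm]
    ring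
  have h1 := area_series (fun j : ℕ => c ^ j * ((p : ℂ) * j + (q + 1))) (fun j => p * j + q) hinj
    hsum (dK c p q) (fun z hz => hasSum_dK c p q hc z (mem_ball_zero_iff.mp hz).le)
  have hx1' : ‖(‖c‖ ^ 2 : ℝ)‖ < 1 := by rwa [Real.norm_of_nonneg hx0]
  have h2 := (((hasSum_coe_mul_geometric_of_norm_lt_one hx1').mul_left (p : ℝ)).add
    ((hasSum_geometric_of_norm_lt_one hx1').mul_left ((q : ℝ) + 1))).mul_left Real.pi
  apply HasSum.unique h1
  have h7 : (fun j : ℕ => ‖c ^ j * ((p : ℂ) * j + (q + 1))‖ ^ 2 *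
      (Real.pi / (((p * j + q : ℕ) : ℝ) + 1))) = fun i : ℕ =>
      Real.pi * ((p : ℝ) * (i * (‖c‖ ^ 2) ^ i) + ((q : ℝ) + 1) * (‖c‖ ^ 2) ^ i) := by
    ext j
    exact aux_term c p q j
  rw [h7]
  exact h2

/-- The energy of `A z ^ n + B conj (K z)`. -/
theorem energy_AB (c A B : ℂ) (p n q : ℕ) (hp : 1 ≤ p) (hc : ‖c‖ < 1) (u : ℂ → ℂ)
    (hu : ∀ z ∈ ball (0 : ℂ) 1, u z = A * z ^ n +
      B * starRingEnd ℂ (z ^ (q + 1) / (1 - c * z ^ p))) :
    energy (ball 0 1) u = 2 * Real.pi * (n * ‖A‖ ^ 2 +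
      ‖B‖ ^ 2 * (p * (‖c‖ ^ 2 / (1 - ‖c‖ ^ 2) ^ 2) + (q + 1) * (1 - ‖c‖ ^ 2)⁻¹)) := by
  have hpt : ∀ z ∈ ball (0 : ℂ) 1, ‖fderiv ℝ u z 1‖ ^ 2 + ‖fderiv ℝ u z I‖ ^ 2 =
      2 * ‖A‖ ^ 2 * n ^ 2 * ‖z‖ ^ (2 * (n - 1)) + 2 * ‖B‖ ^ 2 * ‖dK c p q z‖ ^ 2 := by
    intro z hz
    have hev : u =ᶠ[𝓝 z] fun z => A * z ^ n +
        B * starRingEnd ℂ (z ^ (q + 1) / (1 - c * z ^ p)) := by
      filter_upwards [isOpen_ball.mem_nhds hz] with y hy using hu y hy
    have hne : 1 - c * z ^ p ≠ 0 := ne_zero_of_lt (norm_lt hc (mem_ball_zero_iff.mp hz).le)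
    have h1 : HasFDerivAt (fun z : ℂ => A * z ^ n)
        ((ContinuousLinearMap.toSpanSingleton ℂ (A * ((n : ℂ) * z ^ (n - 1)))).restrictScalars ℝ) z :=
      (((hasDerivAt_pow n z).const_mul A).hasFDerivAt).restrictScalars ℝ
    have h2 : HasFDerivAt (fun z : ℂ => z ^ (q + 1) / (1 - c * z ^ p))
        ((ContinuousLinearMap.toSpanSingleton ℂ (dK c p q z)).restrictScalars ℝ) z :=
      ((hasDerivAt_K c p q hp z hne).hasFDerivAt).restrictScalars ℝ
    have h3 := ((conjCLE.toContinuousLinearMap.hasFDerivAt).comp z h2).const_mul B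
    have h4 := h1.add h3
    have h5 : fderiv ℝ u z = _ := (h4.congr_of_eventuallyEq hev).fderiv
    have h6 : ∀ v : ℂ, fderiv ℝ u z v = A * (n * z ^ (n - 1)) * v +
        B * starRingEnd ℂ (dK c p q z * v) := by
      intro v
      rw [h5]
      simp [mul_comm, mul_left_comm]
    have h7 : fderiv ℝ u z 1 = A * (n * z ^ (n - 1)) + B * starRingEnd ℂ (dK c p q z) := by
      rw [h6]
      simp
    have h8 : fderiv ℝ u z I = I * (A * (n * z ^ (n - 1)) - B * starRingEnd ℂ (dK c p q z)) := by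
      rw [h6, map_mul, conj_I]
      ring
    rw [h7, h8, norm_mul, norm_I, one_mul]
    have h9 := parallelogram_law_with_norm ℝ (A * (n * z ^ (n - 1))) (B * starRingEnd ℂ (dK c p q z))
    have h10 : ‖A * (n * z ^ (n - 1))‖ ^ 2 = ‖A‖ ^ 2 * n ^ 2 * ‖z‖ ^ (2 * (n - 1)) := by
      rw [norm_mul, norm_mul, norm_pow, Complex.norm_natCast, mul_pow, mul_pow, ← pow_mul,
        mul_comm (n - 1) 2]
      ring
    have h11 : ‖B * starRingEnd ℂ (dK c p q z)‖ ^ 2 = ‖B‖ ^ 2 * ‖dK c p q z‖ ^ 2 := by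
      rw [norm_mul, RCLike.norm_conj, mul_pow]
    have h12 : ‖A * (n * z ^ (n - 1)) + B * starRingEnd ℂ (dK c p q z)‖ ^ 2 +
        ‖A * (n * z ^ (n - 1)) - B * starRingEnd ℂ (dK c p q z)‖ ^ 2 =
        2 * ‖A * (n * z ^ (n - 1))‖ ^ 2 + 2 * ‖B * starRingEnd ℂ (dK c p q z)‖ ^ 2 := by
      nlinarith [h9]
    rw [h12, h10, h11]
    ring
  have hfin : volume (ball (0 : ℂ) 1) < ⊤ := measure_ball_lt_top
  have hi1 : IntegrableOn (fun z : ℂ => ‖z‖ ^ (2 * (n - 1))) (ball 0 1) :=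
    integrableOn_cont measurableSet_ball isBounded_ball hfin (by fun_prop)
  have hi2 : IntegrableOn (fun z : ℂ => ‖dK c p q z‖ ^ 2) (ball 0 1) := by
    have hcont : ContinuousOn (fun z : ℂ => ‖dK c p q z‖ ^ 2) (closedBall 0 1) := by
      apply ContinuousOn.pow
      apply ContinuousOn.norm
      unfold dK
      apply ContinuousOn.div
      · fun_prop
      · fun_prop
      · intro z hz
        exact pow_ne_zero 2 (ne_zero_of_lt (norm_lt hc (mem_closedBall_zero_iff.mp hz)))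
    exact (hcont.integrableOn_compact (isCompact_closedBall 0 1)).mono_set ball_subset_closedBall
  unfold energy
  rw [setIntegral_congr_fun measurableSet_ball hpt]
  rw [integral_add (hi1.const_mul _) (hi2.const_mul _), integral_const_mul, integral_const_mul,
    int_dK c p q hp hc, radial_int _ 1 zero_le_one]
  rcases Nat.eq_zero_or_pos n with h0 | h0
  · subst h0
    simp
    ring
  · obtain ⟨n', rfl⟩ : ∃ n', n = n' + 1 := ⟨n - 1, by omega⟩
    have h1 : ((n' : ℝ) + 1) ≠ 0 := by positivity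
    have h2 : (2 * (n' : ℝ) + 2) ≠ 0 := by positivity
    simp only [Nat.add_sub_cancel, one_pow]
    push_cast
    have h3 : 2 * ‖A‖ ^ 2 * ((n' : ℝ) + 1) ^ 2 * (2 * Real.pi * (1 / (2 * n' + 2))) =
        2 * Real.pi * ((n' + 1) * ‖A‖ ^ 2) := by
      field_simp
    rw [h3]
    ring

/-- The second function for `l = n ≥ 0`, before the cutoff. -/
noncomputable def gf (c : ℂ) (p n : ℕ) (z : ℂ) : ℂ :=
  -(starRingEnd ℂ c) * z ^ n + (1 - c * starRingEnd ℂ c) *
    ((starRingEnd ℂ z) ^ (p - n) / (1 - c * (starRingEnd ℂ z) ^ p))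

theorem gf_smooth (c : ℂ) (p n : ℕ) (z : ℂ) (h : 1 - c * (starRingEnd ℂ z) ^ p ≠ 0) :
    ContDiffAt ℝ ∞ (gf c p n) z := by
  have h1 : ContDiffAt ℝ ∞ (fun z : ℂ => starRingEnd ℂ z) z := conjCLE.contDiff.contDiffAt
  have h2 : ContDiffAt ℝ ∞ (fun z : ℂ => z) z := contDiffAt_id
  unfold gf
  apply ContDiffAt.add
  · exact contDiffAt_const.mul (h2.pow n)
  · have h3 : ContDiffAt ℝ ∞ (fun z : ℂ => (starRingEnd ℂ z) ^ (p - n)) z := h1.pow _
    have h4 : ContDiffAt ℝ ∞ (fun z : ℂ => 1 - c * (starRingEnd ℂ z) ^ p) z :=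
      contDiffAt_const.sub (contDiffAt_const.mul (h1.pow p))
    have h5 : ContDiffAt ℝ ∞ (fun z : ℂ => (1 - c * starRingEnd ℂ c) *
        ((starRingEnd ℂ z) ^ (p - n) * (1 - c * (starRingEnd ℂ z) ^ p)⁻¹)) z :=
      contDiffAt_const.mul (h3.mul (h4.inv h))
    exact h5

/-- The case of a natural number `l`. -/
theorem nat_case (p n : ℕ) (c : ℂ) (hp : 1 ≤ p) (hc : ‖c‖ < 1) (hn : 2 * n ≤ p) :
    ∃ v : ℂ → ℂ, ContDiff ℝ ∞ v ∧
      (∀ θ : ℝ, v (exp (θ * I)) = exp (n * θ * I) * starRingEnd ℂ (mob c (exp (p * θ * I)))) ∧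
      (∀ ζ z : ℂ, ζ ^ p = 1 → z ∈ closedBall (0 : ℂ) 1 → v (ζ * z) = ζ ^ n * v z) ∧
      ∀ α γ : ℂ, energy (ball 0 1) (fun z => α * z ^ n + γ * v z) = 2 * Real.pi *
        (n * ‖α - γ * starRingEnd ℂ c‖ ^ 2 + (p - n * (1 - ‖c‖ ^ 2)) * ‖γ‖ ^ 2) := by
  obtain ⟨R, hR1, hR⟩ : ∃ R : ℝ, 1 < R ∧ ‖c‖ * R ^ p < 1 := by
    have h1 : Tendsto (fun r : ℝ => ‖c‖ * r ^ p) (𝓝 1) (𝓝 (‖c‖ * 1 ^ p)) :=
      (Continuous.tendsto (by fun_prop) 1)
    rw [one_pow, mul_one] at h1
    have h2 : ∀ᶠ r : ℝ in 𝓝[>] 1, ‖c‖ * r ^ p < 1 :=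
      (h1.mono_left nhdsWithin_le_nhds).eventually (gt_mem_nhds hc)
    have h3 : ∀ᶠ r : ℝ in 𝓝[>] 1, 1 < r := eventually_mem_nhdsWithin
    obtain ⟨R, hR⟩ := (h3.and h2).exists
    exact ⟨R, hR.1, hR.2⟩
  obtain ⟨q, rfl⟩ : ∃ q, p = n + (q + 1) := ⟨p - n - 1, by omega⟩
  let χ : ContDiffBump (0 : ℂ) := ⟨(1 + R) / 2, R, by linarith, by linarith⟩
  have hχ1 : ∀ z : ℂ, ‖z‖ ≤ 1 → χ z = 1 := by
    intro z hz
    apply χ.one_of_mem_closedBall
    rw [mem_closedBall_zero_iff]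
    change ‖z‖ ≤ (1 + R) / 2
    linarith
  have hχ0 : ∀ z : ℂ, R ≤ ‖z‖ → χ z = 0 := by
    intro z hz
    apply χ.zero_of_le_dist
    rw [dist_zero_right]
    exact hz
  have hnc : ‖starRingEnd ℂ c‖ < 1 := by rwa [RCLike.norm_conj]
  refine ⟨fun z => (χ z : ℂ) * gf c (n + (q + 1)) n z, ?_, ?_, ?_, ?_⟩
  · rw [contDiff_iff_contDiffAt]
    intro z
    by_cases h : ‖c‖ * ‖z‖ ^ (n + (q + 1)) < 1
    · have h1 : ContDiffAt ℝ ∞ (fun z => (χ z : ℂ)) z :=
        (Complex.ofRealCLM.contDiff.comp χ.contDiff).contDiffAt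
      apply h1.mul (gf_smooth c _ n z _)
      apply ne_zero_of_lt
      rwa [norm_mul, norm_pow, RCLike.norm_conj]
    · have h2 : R < ‖z‖ := by
        by_contra h3
        push Not at h3
        apply h
        calc ‖c‖ * ‖z‖ ^ (n + (q + 1)) ≤ ‖c‖ * R ^ (n + (q + 1)) := by gcongr
          _ < 1 := hR
      have h4 : (fun z => (χ z : ℂ) * gf c (n + (q + 1)) n z) =ᶠ[𝓝 z] fun _ => 0 := by
        filter_upwards [(isOpen_lt continuous_const continuous_norm).mem_nhds h2] with y hy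
        have hy' : R < ‖y‖ := hy
        rw [hχ0 y hy'.le]
        simp
      exact contDiffAt_const.congr_of_eventuallyEq h4
  · intro θ
    have hz1 : ‖exp (θ * I)‖ = 1 := Complex.norm_exp_ofReal_mul_I θ
    have e1 : exp (((n + (q + 1) : ℕ) : ℂ) * θ * I) = exp (θ * I) ^ (n + (q + 1)) := by
      rw [← Complex.exp_nat_mul]
      congr 1
      ring
    have e2 : exp ((n : ℂ) * θ * I) = exp (θ * I) ^ n := by
      rw [← Complex.exp_nat_mul]
      congr 1
      ring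
    rw [e1, e2]
    change ((χ (exp (θ * I)) : ℝ) : ℂ) * gf c (n + (q + 1)) n (exp (θ * I)) = _
    rw [hχ1 _ hz1.le, ofReal_one, one_mul]
    set z := exp (θ * I) with hz
    have hZ : z * starRingEnd ℂ z = 1 := by
      rw [Complex.mul_conj, Complex.normSq_eq_norm_sq, hz1]
      simp
    set Z := starRingEnd ℂ z with hZd
    have hne : 1 - c * Z ^ (n + (q + 1)) ≠ 0 := by
      apply ne_zero_of_lt
      rw [norm_mul, norm_pow, hZd, RCLike.norm_conj, hz1, one_pow, mul_one]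
      exact hc
    unfold gf mob
    rw [map_div₀, map_sub, map_sub, map_mul, map_pow, map_one, Complex.conj_conj, ← hZd]
    have h5 : n + (q + 1) - n = q + 1 := by omega
    rw [h5]
    have h6 : z ^ n * Z ^ (n + (q + 1)) = Z ^ (q + 1) := by
      rw [pow_add, ← mul_assoc, ← mul_pow, hZ, one_pow, one_mul]
    rw [← mul_div_assoc, ← mul_div_assoc, add_div' _ _ _ hne, div_left_inj' hne]
    linear_combination (c * starRingEnd ℂ c - 1) * h6
  · intro ζ z hζ hz
    have hζ1 : ‖ζ‖ = 1 := by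
      have h1 : ‖ζ‖ ^ (n + (q + 1)) = 1 := by rw [← norm_pow, hζ, norm_one]
      exact (pow_eq_one_iff_of_nonneg (norm_nonneg _) (by omega)).mp h1
    have hz1 : ‖z‖ ≤ 1 := mem_closedBall_zero_iff.mp hz
    have hzz : ‖ζ * z‖ ≤ 1 := by rwa [norm_mul, hζ1, one_mul]
    change ((χ (ζ * z) : ℝ) : ℂ) * gf c (n + (q + 1)) n (ζ * z) =
      ζ ^ n * (((χ z : ℝ) : ℂ) * gf c (n + (q + 1)) n z)
    rw [hχ1 _ hz1, hχ1 _ hzz, ofReal_one, one_mul, one_mul]
    have hZ : ζ * starRingEnd ℂ ζ = 1 := by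
      rw [Complex.mul_conj, Complex.normSq_eq_norm_sq, hζ1]
      simp
    have h2 : (starRingEnd ℂ ζ) ^ (n + (q + 1)) = 1 := by
      rw [← map_pow, hζ, map_one]
    have h3 : (starRingEnd ℂ ζ) ^ (q + 1) = ζ ^ n := by
      calc (starRingEnd ℂ ζ) ^ (q + 1) = ζ ^ (n + (q + 1)) * (starRingEnd ℂ ζ) ^ (q + 1) := by
            rw [hζ, one_mul]
        _ = ζ ^ n * (ζ * starRingEnd ℂ ζ) ^ (q + 1) := by
            rw [mul_pow, pow_add]
            ring
        _ = ζ ^ n := by rw [hZ, one_pow, mul_one]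
    unfold gf
    have h5 : n + (q + 1) - n = q + 1 := by omega
    rw [h5, map_mul, mul_pow, mul_pow, mul_pow, h2, h3, one_mul]
    ring
  · intro α γ
    have h5 : n + (q + 1) - n = q + 1 := by omega
    have h1 := energy_AB (starRingEnd ℂ c) (α - γ * starRingEnd ℂ c)
      (γ * (1 - c * starRingEnd ℂ c)) (n + (q + 1)) n q hp hnc
      (fun z => α * z ^ n + γ * ((χ z : ℂ) * gf c (n + (q + 1)) n z)) (by
        intro z hz
        have hz1 : ‖z‖ ≤ 1 := (mem_ball_zero_iff.mp hz).le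
        rw [hχ1 z hz1, ofReal_one, one_mul]
        unfold gf
        rw [h5, map_div₀, map_sub, map_mul, map_pow, map_pow, map_one, Complex.conj_conj]
        ring)
    rw [h1]
    have hx : ‖c‖ ^ 2 < 1 := by
      rw [sq_lt_one_iff₀ (norm_nonneg _)]
      exact hc
    have hx0 : 1 - ‖c‖ ^ 2 ≠ 0 := by linarith
    have h2 : ‖γ * (1 - c * starRingEnd ℂ c)‖ ^ 2 = ‖γ‖ ^ 2 * (1 - ‖c‖ ^ 2) ^ 2 := by
      rw [norm_mul, mul_pow]
      congr 1
      have h3 : (1 - c * starRingEnd ℂ c) = ((1 - ‖c‖ ^ 2 : ℝ) : ℂ) := by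
        rw [Complex.mul_conj, Complex.normSq_eq_norm_sq]
        push_cast
        ring
      rw [h3, Complex.norm_real, Real.norm_eq_abs, sq_abs]
    rw [h2, RCLike.norm_conj]
    push_cast
    field_simp
    ring

theorem t : S_BL := by
  intro p c l hp hc hl
  rcases le_or_gt 0 l with h0 | h0
  · obtain ⟨n, rfl⟩ := Int.eq_ofNat_of_zero_le h0
    have hn : 2 * n ≤ p := by
      rw [abs_of_nonneg h0] at hl
      exact_mod_cast hl
    obtain ⟨v, h1, h2, h3, h4⟩ := nat_case p n c hp hc hn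
    refine ⟨v, h1, ?_, ?_, ?_⟩
    · intro θ
      rw [h2 θ]
      unfold vcirc
      rw [if_pos h0]
      push_cast
      rfl
    · intro ζ z hζ hz
      rw [h3 ζ z hζ hz, zpow_natCast]
    · intro α γ
      have h5 : (fun z => α * hf (n : ℤ) z + γ * v z) = fun z => α * z ^ n + γ * v z := by
        ext z
        unfold hf
        rw [if_pos h0, Int.toNat_natCast]
      rw [h5, h4 α γ, if_pos h0]
      have h6 : |((n : ℤ) : ℝ)| = n := by
        rw [Int.cast_natCast, Nat.abs_cast]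
      rw [h6]
  · obtain ⟨n, hn0⟩ := Int.eq_ofNat_of_zero_le (show 0 ≤ -l by omega)
    obtain rfl : l = -(n : ℤ) := by omega
    have hneg : ¬ (0 ≤ -(n : ℤ)) := by omega
    have hn : 2 * n ≤ p := by
      rw [abs_neg, Nat.abs_cast] at hl
      exact_mod_cast hl
    obtain ⟨v, h1, h2, h3, h4⟩ := nat_case p n c hp hc hn
    refine ⟨fun z => starRingEnd ℂ (v z), conjCLE.contDiff.comp h1, ?_, ?_, ?_⟩
    · intro θ
      change starRingEnd ℂ (v (exp (θ * I))) = _
      rw [h2 θ]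
      unfold vcirc
      rw [if_neg hneg, map_mul, Complex.conj_conj, ← Complex.exp_conj, map_mul, map_mul, conj_I,
        conj_ofReal, Complex.conj_natCast]
      push_cast
      congr 2
      ring
    · intro ζ z hζ hz
      change starRingEnd ℂ (v (ζ * z)) = _ * starRingEnd ℂ (v z)
      rw [h3 ζ z hζ hz, map_mul, map_pow, zpow_neg, zpow_natCast, ← inv_pow]
      congr 2
      have hζ1 : ‖ζ‖ = 1 := by
        have h1 : ‖ζ‖ ^ p = 1 := by rw [← norm_pow, hζ, norm_one]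
        exact (pow_eq_one_iff_of_nonneg (norm_nonneg _) (by omega)).mp h1
      rw [Complex.inv_eq_conj hζ1]
    · intro α γ
      have h5 : (fun z => α * hf (-(n : ℤ)) z + γ * starRingEnd ℂ (v z)) = fun z =>
          starRingEnd ℂ (starRingEnd ℂ α * z ^ n + starRingEnd ℂ γ * v z) := by
        ext z
        unfold hf
        rw [if_neg hneg, neg_neg, Int.toNat_natCast]
        simp only [map_add, map_mul, map_pow, Complex.conj_conj]
      have h7 : ∀ u : ℂ → ℂ, energy (ball 0 1) (fun z => starRingEnd ℂ (u z)) =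
          energy (ball 0 1) u := by
        intro u
        unfold energy
        congr 1
        ext z
        have h8 : fderiv ℝ (fun z => starRingEnd ℂ (u z)) z =
            (conjCLE : ℂ →L[ℝ] ℂ).comp (fderiv ℝ u z) :=
          conjCLE.comp_fderiv
        rw [h8]
        simp
      rw [h5, h7, h4, if_neg hneg]
      have h6 : |((-(n : ℤ) : ℤ) : ℝ)| = n := by
        push_cast
        rw [abs_neg, Nat.abs_cast]
      rw [h6, RCLike.norm_conj]
      have h9 : ‖starRingEnd ℂ α - starRingEnd ℂ γ * starRingEnd ℂ c‖ = ‖α - γ * c‖ := by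
        rw [← map_mul, ← map_sub, RCLike.norm_conj]
      rw [h9]

end Pool.Agent.Helper76.ST.BL
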