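import Pool.Agent.Helper69.ST.GoalsR

/-!
Packet PR of project ST: primitives of holomorphic functions on domains with connected complement.
-/

open MeasureTheory Set Complex Metric Filter
open scoped ContDiff Topology ENNReal

namespace Pool.Agent.Helper76.ST.PR

open Pool.Agent.Helper45.Stek Pool.Agent.Helper69.ST

/-- The exhaustion of `U`. -/
def Kn (U : Set ℂ) (n : ℕ) : Set ℂ := {z | 1 / ((n : ℝ) + 1) ≤ infDist z Uᶜ}

theorem Kn_sub (U : Set ℂ) (n : ℕ) : Kn U n ⊆ U := by
  intro z hz
  by_contra h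
  have h1 : infDist z Uᶜ = 0 := infDist_zero_of_mem h
  have h2 : 1 / ((n : ℝ) + 1) ≤ infDist z Uᶜ := hz
  have h3 : 0 < 1 / ((n : ℝ) + 1) := by positivity
  linarith

theorem Kn_compact (U : Set ℂ) (hb : Bornology.IsBounded U) (n : ℕ) : IsCompact (Kn U n) := by
  apply isCompact_of_isClosed_isBounded
  · exact isClosed_le continuous_const (continuous_infDist_pt _)
  · exact hb.subset (Kn_sub U n)

theorem local_ball (U : Set ℂ) (ho : IsOpen U) (hne : Uᶜ.Nonempty) (x : ℂ) (hx : x ∈ U) :
    ∃ (r : ℝ) (N : ℕ), 0 < r ∧ ∀ n ≥ N, ball x r ⊆ Kn U n := by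
  obtain ⟨R, hR, hRU⟩ := Metric.isOpen_iff.mp ho x hx
  obtain ⟨N, hN⟩ := exists_nat_one_div_lt (show 0 < R / 2 by positivity)
  refine ⟨R / 2, N, by positivity, ?_⟩
  intro n hn y hy
  have h1 : 1 / ((n : ℝ) + 1) ≤ 1 / ((N : ℝ) + 1) := by
    apply one_div_le_one_div_of_le (by positivity)
    have : (N : ℝ) ≤ n := by exact_mod_cast hn
    linarith
  have h2 : R / 2 ≤ infDist y Uᶜ := by
    rw [le_infDist hne]
    intro z hz
    by_contra h
    push Not at h
    apply hz
    apply hRU
    rw [mem_ball] at hy ⊢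
    have := dist_triangle z y x
    rw [dist_comm z y] at this
    linarith
  change 1 / ((n : ℝ) + 1) ≤ infDist y Uᶜ
  linarith

theorem t (hRU : S_RU) (hHU : S_HU) : S_PR := by
  intro U ho hb hc hpc F hF
  obtain ⟨z₀, hz₀⟩ := hc.nonempty
  have hne : Uᶜ.Nonempty := by
    obtain ⟨R, hR⟩ := hb.subset_closedBall 0
    refine ⟨((|R| + 1 : ℝ) : ℂ), fun h => ?_⟩
    have h1 := mem_closedBall_zero_iff.mp (hR h)
    rw [Complex.norm_real, Real.norm_of_nonneg (by positivity)] at h1
    have := le_abs_self R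
    linarith
  have hP : ∀ n : ℕ, ∃ P : Polynomial ℂ, ∀ z ∈ Kn U n, ‖F z - P.eval z‖ < 1 / ((n : ℝ) + 1) := by
    intro n
    obtain ⟨K', hK', hsub, hsubU, hpre⟩ := hHU U ho hb hpc (Kn U n) (Kn_sub U n) (Kn_compact U hb n)
    obtain ⟨P, hP⟩ := hRU K' U F hK' hpre ho hsubU hF (1 / ((n : ℝ) + 1)) (by positivity)
    exact ⟨P, fun z hz => hP z (hsub hz)⟩
  choose P hP using hP
  have hQ : ∀ n : ℕ, ∃ Q : ℂ → ℂ, Q z₀ = 0 ∧ ∀ z, HasDerivAt Q ((P n).eval z) z := by
    intro n
    have h1 : Differentiable ℂ (fun z => (P n).eval z) := (P n).differentiable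
    obtain ⟨Q, hQ0, hQ⟩ := h1.isExactOn_univ.with_val_at z₀ 0
    exact ⟨Q, hQ0, fun z => hQ z (mem_univ z)⟩
  choose Q hQ0 hQ using hQ
  have hlim0 : Tendsto (fun n : ℕ => 1 / ((n : ℝ) + 1)) atTop (𝓝 0) :=
    tendsto_one_div_add_atTop_nhds_zero_nat
  have hloc : TendstoLocallyUniformlyOn (fun n z => (P n).eval z) F atTop U := by
    rw [Metric.tendstoLocallyUniformlyOn_iff]
    intro ε hε x hx
    obtain ⟨r, N, hr, hN⟩ := local_ball U ho hne x hx
    refine ⟨ball x r, mem_nhdsWithin_of_mem_nhds (ball_mem_nhds x hr), ?_⟩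
    filter_upwards [eventually_ge_atTop N, hlim0.eventually (gt_mem_nhds hε)] with n hn hnε y hy
    rw [dist_eq_norm]
    exact (hP n y (hN n hn hy)).trans hnε
  have hstep : ∀ x ∈ U, ∃ r > 0, ∀ y ∈ ball x r, ∀ y' ∈ ball x r,
      CauchySeq (fun n => Q n y) → CauchySeq (fun n => Q n y') := by
    intro x hx
    obtain ⟨r, N, hr, hN⟩ := local_ball U ho hne x hx
    refine ⟨r, hr, fun y hy y' hy' hcy => ?_⟩
    have hbd : ∀ k ≥ N, ∀ n ≥ k, ∀ m ≥ k, ‖(Q n y' - Q n y) - (Q m y' - Q m y)‖ ≤
        2 * (1 / ((k : ℝ) + 1)) * (2 * r) := by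
      intro k hk n hn m hm
      have hd : ∀ z ∈ ball x r, HasDerivWithinAt (fun z => Q n z - Q m z)
          ((P n).eval z - (P m).eval z) (ball x r) z := fun z _ =>
        ((hQ n z).sub (hQ m z)).hasDerivWithinAt
      have hmono : ∀ l : ℕ, l ≥ k → 1 / ((l : ℝ) + 1) ≤ 1 / ((k : ℝ) + 1) := by
        intro l hl
        apply one_div_le_one_div_of_le (by positivity)
        have : (k : ℝ) ≤ l := by exact_mod_cast hl
        linarith
      have hb : ∀ z ∈ ball x r, ‖(P n).eval z - (P m).eval z‖ ≤ 2 * (1 / ((k : ℝ) + 1)) := by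
        intro z hz
        have h1 := hP n z (hN n (hk.trans hn) hz)
        have h2 := hP m z (hN m (hk.trans hm) hz)
        have h3 := hmono n hn
        have h5 := hmono m hm
        calc ‖(P n).eval z - (P m).eval z‖ = ‖(F z - (P m).eval z) - (F z - (P n).eval z)‖ := by
              congr 1
              ring
          _ ≤ ‖F z - (P m).eval z‖ + ‖F z - (P n).eval z‖ := norm_sub_le _ _
          _ ≤ 2 * (1 / ((k : ℝ) + 1)) := by linarith
      have h4 := (convex_ball x r).norm_image_sub_le_of_norm_hasDerivWithin_le hd hb hy hy'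
      have h6 : (Q n y' - Q n y) - (Q m y' - Q m y) = (Q n y' - Q m y') - (Q n y - Q m y) := by
        ring
      rw [h6]
      refine h4.trans ?_
      apply mul_le_mul_of_nonneg_left _ (by positivity)
      rw [← dist_eq_norm]
      rw [mem_ball] at hy hy'
      have := dist_triangle y' x y
      rw [dist_comm x y] at this
      linarith
    have hD : CauchySeq (fun n => Q (n + N) y' - Q (n + N) y) := by
      apply cauchySeq_of_le_tendsto_0 (fun k : ℕ => 2 * (1 / ((k : ℝ) + 1)) * (2 * r))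
      · intro n m k hn hm
        rw [dist_eq_norm]
        have h1 := hbd (k + N) (Nat.le_add_left _ _) (n + N) (Nat.add_le_add_right hn N)
          (m + N) (Nat.add_le_add_right hm N)
        refine h1.trans ?_
        apply mul_le_mul_of_nonneg_right _ (by positivity)
        apply mul_le_mul_of_nonneg_left _ (by norm_num)
        apply one_div_le_one_div_of_le (by positivity)
        push_cast
        have : (0 : ℝ) ≤ N := Nat.cast_nonneg _
        linarith
      · have := (hlim0.const_mul 2).mul_const (2 * r)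
        simpa using this
    have hD' : CauchySeq (fun n => Q n y' - Q n y) := (cauchySeq_shift N).mp hD
    have h7 : (fun n => Q n y') = (fun n => Q n y' - Q n y) + fun n => Q n y := by
      ext n
      simp
    rw [h7]
    exact hD'.add hcy
  have hcau : ∀ x ∈ U, CauchySeq (fun n => Q n x) := by
    intro x hx
    have h1 := hc.isPreconnected.induction₂'
      (fun y y' => CauchySeq (fun n => Q n y) → CauchySeq (fun n => Q n y')) (by
        intro x hx
        obtain ⟨r, hr, h⟩ := hstep x hx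
        filter_upwards [mem_nhdsWithin_of_mem_nhds (ball_mem_nhds x hr)] with y hy
        exact ⟨h x (mem_ball_self hr) y hy, h y hy x (mem_ball_self hr)⟩)
      (fun x y z _ _ _ h1 h2 h => h2 (h1 h)) hz₀ hx
    apply h1
    simp only [hQ0]
    exact cauchySeq_const 0
  choose! G hG using fun x hx => cauchySeq_tendsto_of_complete (hcau x hx)
  exact ⟨G, fun z hz => hasDerivAt_of_tendstoLocallyUniformlyOn ho hloc
    (Eventually.of_forall fun n x _ => hQ n x) hG hz⟩

end Pool.Agent.Helper76.ST.PR
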